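import Pool.Agent.ASE.Stmts9
import Pool.Agent.Helper3_K9.Lbd
import Pool.Agent.Helper3_K9.Psi
import Pool.Agent.Helper53_AT3.PSG

/-!
# Squad ASE, row FXC: a fixed character with trivial central character
-/

open scoped BigOperators

noncomputable section

namespace Pool.Agent.PP.SE.H43

open Pool.Agent.Helper51_AWC Pool.Agent.Helper79_WRA Pool.Agent.PP Pool.Agent.PP.KF
open Pool.Agent.PP.K9 Pool.Agent.PP.K9.H97 Pool.Agent.PP.H75 Pool.Agent.PP.T3 Pool.Agent.PP.SO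
open Pool.Agent.PP.SD

attribute [local instance] Ideal.Quotient.field

/-- a character of `b W` which is trivial on `i(W)` -/
theorem triv_ex {ℓ : ℕ} [Fact ℓ.Prime] {M : Ideal (integralClosure ℤ ℂ)} [M.IsMaximal]
    (hM : (ℓ : integralClosure ℤ ℂ) ∈ M) {V₀ G : Type} [CommGroup V₀] [Finite V₀] [Group G]
    [Finite G] (hex : ∀ v : V₀, v ^ ℓ = 1) {E₀ : Subgroup (MulAut V₀)} {B : Bk (FF M) V₀ G}
    (hB : Sb ℓ M E₀ B) (W : Subgroup V₀) : ∃ χ ∈ Ch B W, ∀ w ∈ W, nu B χ w = 1 := by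
  classical
  have hF : GoodF ℓ (FF M) := H50.fld ℓ Fact.out M hM
  have hC : B.C W = Subgroup.centralizer ((W.map B.i : Subgroup G) : Set G) := rfl
  have hZC : W.map B.i ≤ B.C W := by
    rintro _ ⟨w, hw, rfl⟩
    rw [hC, Subgroup.mem_centralizer_iff]
    rintro _ ⟨w', hw', rfl⟩
    rw [← map_mul, ← map_mul, mul_comm]
  let Z : Subgroup (B.C W) := (W.map B.i).subgroupOf (B.C W)
  have hZc : Z ≤ Subgroup.center (B.C W) := by
    rintro ⟨z, hz⟩ hz'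
    have hz2 : z ∈ W.map B.i := hz'
    rw [Subgroup.mem_center_iff]
    rintro ⟨x, hx⟩
    apply Subtype.ext
    change x * z = z * x
    rw [hC, Subgroup.mem_centralizer_iff] at hx
    exact (hx z hz2).symm
  have hZn : Z.Normal := by
    refine ⟨fun x hx g => ?_⟩
    have h1 := Subgroup.mem_center_iff.1 (hZc hx) g
    rw [h1, mul_inv_cancel_right]
    exact hx
  have hZp : IsPGroup ℓ Z := by
    rintro ⟨⟨z, hz⟩, hz'⟩
    obtain ⟨w, hw, hwz⟩ := (show z ∈ W.map B.i from hz')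
    refine ⟨1, Subtype.ext (Subtype.ext ?_)⟩
    change z ^ ℓ ^ 1 = 1
    rw [pow_one, ← hwz, ← map_pow, hex, map_one]
  let p : B.C W →* B.C W ⧸ Z := QuotientGroup.mk' Z
  have hp : Function.Surjective p := QuotientGroup.mk'_surjective Z
  have hker : p.ker = Z := QuotientGroup.ker_mk' Z
  have hblk : IsBlk (fun t : B.C W => B.b W t) := (hB.lb W).blk.blk
  have h1 : IsBlk (push p (fun t : B.C W => B.b W t)) :=
    T3.H53.psg ℓ (FF M) hF (B.C W) (B.C W ⧸ Z) p hp (hker.le.trans hZc)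
      (by rw [hker]; exact hZp) _ hblk
  have h2 := K9.H3.lbd ℓ M hM (B.C W ⧸ Z) _ h1.1 h1.2.1
  have h3 : (IrrE M (push p (fun t : B.C W => B.b W t))).ncard ≠ 0 := by
    have := h2.1.trans h2.2
    omega
  obtain ⟨θ, hθ⟩ := Set.nonempty_of_ncard_ne_zero h3
  have h4 := (K9.H3.psi M (B.C W) (B.C W ⧸ Z) p hp (fun t : B.C W => B.b W t) hblk.1.1).1
  rw [h4] at hθ
  obtain ⟨hθ1, hθ2⟩ := hθ
  obtain ⟨χ, hχ⟩ : ∃ χ : G → ℂ, χ = fun x => if h : x ∈ B.C W then θ (p ⟨x, h⟩) else 0 :=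
    ⟨_, rfl⟩
  have hχ1 : ∀ (x : G) (h : x ∈ B.C W), χ x = θ (p ⟨x, h⟩) := by
    intro x h
    rw [hχ]
    exact dif_pos h
  have hχ0 : ∀ x : G, x ∉ B.C W → χ x = 0 := by
    intro x h
    rw [hχ]
    exact dif_neg h
  have hχr : (fun t : B.C W => χ t) = fun t => θ (p t) := by
    funext t
    exact hχ1 t t.2
  refine ⟨χ, ⟨hχ0, ?_⟩, ?_⟩
  · rw [hχr]
    exact hθ2
  · intro w hw
    have hw1 : B.i w ∈ B.C W := hZC ⟨w, hw, rfl⟩
    have h5 : p ⟨B.i w, hw1⟩ = 1 := by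
      rw [← MonoidHom.mem_ker, hker]
      exact ⟨w, hw, rfl⟩
    have h6 : p ⟨1, (B.C W).one_mem⟩ = 1 := map_one p
    unfold nu
    rw [hχ1 _ hw1, hχ1 1 (B.C W).one_mem, h5, h6]
    have h7 : (fun a => θ (p a)) ∈ Irr (B.C W) := hθ2.1
    have h8 : θ (p 1) ≠ 0 := irr_one_ne h7
    rw [map_one] at h8
    exact div_self h8

/-- the group of the automorphisms of a cyclic group of prime order is cyclic; restriction to `W` -/
theorem gen_ex {ℓ : ℕ} [hℓ : Fact ℓ.Prime] {V₀ : Type} [CommGroup V₀] [Finite V₀]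
    (E₀ : Subgroup (MulAut V₀)) (W : Subgroup V₀) (hW : Nat.card W = ℓ) :
    ∃ g ∈ E₀, mp g W = W ∧ ∀ σ ∈ E₀, mp σ W = W → ∃ k : ℕ, (g ^ k)⁻¹ * σ ∈ St E₀ W := by
  classical
  have hfA : Finite (MulAut V₀) := Finite.of_injective (fun σ : MulAut V₀ => (σ : V₀ → V₀))
    DFunLike.coe_injective
  have hmem : ∀ σ : MulAut V₀, mp σ W = W → ∀ w ∈ W, σ w ∈ W := by
    intro σ h w hw
    rw [← h]
    exact ⟨w, hw, rfl⟩
  -- the stabiliser
  let N : Subgroup (MulAut V₀) :=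
    { carrier := {σ | σ ∈ E₀ ∧ ∀ w, σ w ∈ W ↔ w ∈ W}
      one_mem' := ⟨E₀.one_mem, fun w => Iff.rfl⟩
      mul_mem' := fun {a b} ha hb => ⟨E₀.mul_mem ha.1 hb.1, fun w => by
        rw [MulAut.mul_apply, ha.2, hb.2]⟩
      inv_mem' := fun {a} ha => ⟨E₀.inv_mem ha.1, fun w => by
        have h1 := ha.2 (a⁻¹ w)
        rw [MulAut.apply_inv_self] at h1
        exact h1.symm⟩ }
  have hN : ∀ σ : MulAut V₀, σ ∈ E₀ → mp σ W = W → σ ∈ N := by
    intro σ hσ h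
    refine ⟨hσ, fun w => ⟨fun hw => ?_, hmem σ h w⟩⟩
    rw [← h] at hw
    obtain ⟨w', hw', h1⟩ := hw
    have h2 : w' = w := σ.injective h1
    rwa [← h2]
  have hN2 : ∀ σ ∈ N, mp σ W = W := by
    intro σ hσ
    ext x
    constructor
    · rintro ⟨w, hw, rfl⟩
      exact (hσ.2 w).2 hw
    · intro hx
      refine ⟨σ⁻¹ x, ?_, MulAut.apply_inv_self _ _ _⟩
      exact ((N.inv_mem hσ).2 x).2 hx
  let r : N →* MulAut W :=
    { toFun := fun σ =>
        { toFun := fun w => ⟨(σ : MulAut V₀) w, (σ.2.2 w).2 w.2⟩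
          invFun := fun w => ⟨(σ : MulAut V₀)⁻¹ w, ((N.inv_mem σ.2).2 w).2 w.2⟩
          left_inv := fun w => Subtype.ext (MulAut.inv_apply_self _ _ _)
          right_inv := fun w => Subtype.ext (MulAut.apply_inv_self _ _ _)
          map_mul' := fun w w' => Subtype.ext (map_mul _ _ _) }
      map_one' := MulEquiv.ext fun w => rfl
      map_mul' := fun σ τ => MulEquiv.ext fun w => rfl }
  have hcW : IsCyclic W := isCyclic_of_prime_card (p := ℓ) hW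
  have hcA : IsCyclic (MulAut W) := by
    have h1 : IsCyclic (ZMod (Nat.card W))ˣ := by
      rw [hW]
      exact ZMod.isCyclic_units_prime hℓ.out
    exact isCyclic_of_injective (IsCyclic.mulAutMulEquiv W).toMonoidHom
      (IsCyclic.mulAutMulEquiv W).injective
  have hcr : IsCyclic r.range := Subgroup.isCyclic r.range
  obtain ⟨⟨y, g, hg⟩, hy⟩ := hcr.exists_generator
  refine ⟨g, g.2.1, hN2 g g.2, fun σ hσ hσW => ?_⟩
  have h1 := hy ⟨r ⟨σ, hN σ hσ hσW⟩, ⟨_, rfl⟩⟩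
  rw [← mem_powers_iff_mem_zpowers] at h1
  obtain ⟨k, hk⟩ := h1
  refine ⟨k, ?_, ?_⟩
  · exact E₀.mul_mem (E₀.inv_mem (E₀.pow_mem g.2.1 k)) hσ
  · intro w hw
    have h2 : (y ^ k : MulAut W) = r ⟨σ, hN σ hσ hσW⟩ := congrArg Subtype.val hk
    rw [← hg, ← map_pow] at h2
    have h3 := congrArg (fun f : MulAut W => ((f ⟨w, hw⟩ : W) : V₀)) h2
    change ((g ^ k : N) : MulAut V₀) w = σ w at h3
    rw [Subgroup.coe_pow] at h3
    rw [MulAut.mul_apply, ← h3, MulAut.inv_apply_self]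

/-- row FXC -/
theorem fxc (cge : CgeStmt) (fxe : FxeStmt) (czb : CzbStmt) (acb : AcbStmt) : FxcStmt := by
  intro ℓ _ M _ hM hℓ2 V₀ G _ _ _ _ E₀ hq B hB W hWR hnS
  have hℓ : ℓ.Prime := Fact.out
  have hWc : Nat.card W = ℓ := hWR.1
  have hsb : Sb ℓ M E₀ B := hB.toSb
  obtain ⟨g, hg, hgW, hgen⟩ := gen_ex (ℓ := ℓ) E₀ W hWc
  obtain ⟨-, -, -, -, -, -, hz7, hz8⟩ := czb ℓ M hM hℓ2 V₀ G E₀ hq B hsb W
  obtain ⟨ha0, ha⟩ := acb ℓ M hM hℓ2 V₀ G E₀ hq B hsb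
  -- the elements of `St E₀ W` act trivially
  have hst : ∀ χ ∈ Ch B W, ∀ τ ∈ St E₀ W, ac B τ χ = χ := by
    intro χ hχ τ hτ
    have h1 := ha0 τ hτ.1
    have h2 : tt B τ ∈ B.C W := by
      change tt B τ ∈ Subgroup.centralizer ((W.map B.i : Subgroup G) : Set G)
      rw [Subgroup.mem_centralizer_iff]
      rintro _ ⟨w, hw, rfl⟩
      have h3 := h1.2 w
      rw [hτ.2 w hw, mul_inv_eq_iff_eq_mul] at h3
      exact h3.symm
    funext x
    have h3 := (hz7 χ hχ).2.2.2.2 (tt B τ)⁻¹ ((B.C W).inv_mem h2) x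
    rw [inv_inv] at h3
    exact h3
  -- a character fixed by `g` is fixed by the stabiliser of `W`
  have hfix : ∀ χ ∈ Ch B W, ac B g χ = χ → ∀ σ ∈ E₀, mp σ W = W →
      ∀ t ∈ Tg B.i.range B.g, (∀ v, t * B.i v * t⁻¹ = B.i (σ v)) →
        (fun x => χ (t⁻¹ * x * t)) = χ := by
    intro χ hχ hgχ σ hσ hσW t ht hts
    have hmul : ∀ a ∈ E₀, ∀ b ∈ E₀, ac B (a * b) χ = ac B a (ac B b χ) :=
      fun a ha1 b hb1 => ((ha W b hb1).2.2.1 χ hχ).2.2.1 a ha1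
    have hpow : ∀ k : ℕ, ac B (g ^ k) χ = χ := by
      intro k
      induction k with
      | zero =>
        rw [pow_zero]
        exact ((ha W 1 E₀.one_mem).2.2.1 χ hχ).2.1
      | succ k ih =>
        rw [pow_succ, hmul _ (E₀.pow_mem hg k) _ hg, hgχ, ih]
    obtain ⟨k, hk⟩ := hgen σ hσ hσW
    have h1 : ac B σ χ = χ := by
      have h2 : σ = g ^ k * ((g ^ k)⁻¹ * σ) := by rw [mul_inv_cancel_left]
      rw [h2, hmul _ (E₀.pow_mem hg k) _ hk.1, hst χ hχ _ hk, hpow]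
    funext x
    have h2 := (ha W σ hσ).1 t ht hts χ hχ.1 (fun z hz y => (hz7 χ hχ).2.2.2.2 z hz y) x
    rw [h1] at h2
    exact h2.symm
  by_cases htr : ∀ w ∈ W, g w = w
  · -- all of the stabiliser acts trivially
    obtain ⟨χ, hχ, hnu⟩ := triv_ex hM hq.ex hsb W
    exact ⟨χ, hχ, hnu, hfix χ hχ (hst χ hχ g ⟨hg, htr⟩)⟩
  · push Not at htr
    obtain ⟨w₀, hw₀, hne⟩ := htr
    obtain ⟨G', iG', iF', B', xc', κ', hB', -, hLam, -, hxc, -, -, -⟩ :=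
      cge ℓ M hM hℓ2 V₀ G E₀ hq B hB 0 (fun _ => 1) rfl
        (fun _ _ => ⟨0, (SOR.Rl ℓ).zero_mem, by ring⟩) (fun _ _ _ _ => rfl)
    have hsb' : Sb ℓ M E₀ B' := hB'.toSb
    have hcard := fxe ℓ M hM hℓ2 V₀ G G' E₀ hq B B' hsb hsb' hLam W hWc g hg hgW
    have hfin' : {χ | χ ∈ Ch B' W ∧ ac B' g χ = χ}.Finite :=
      (czb ℓ M hM hℓ2 V₀ G' E₀ hq B' hsb' W).2.2.2.2.2.2.2.subset fun χ h => h.1
    have hmem' : xc' W ∈ {χ | χ ∈ Ch B' W ∧ ac B' g χ = χ} := by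
      refine ⟨(hxc.m W hWR hnS).1, ?_⟩
      obtain ⟨ha0', -⟩ := acb ℓ M hM hℓ2 V₀ G' E₀ hq B' hsb'
      have h1 := ha0' g hg
      have h2 := hxc.e W hWR hnS g hg (tt B' g) h1.1 h1.2
      rw [hgW] at h2
      exact h2.symm
    have hne' : {χ | χ ∈ Ch B' W ∧ ac B' g χ = χ}.ncard ≠ 0 := by
      intro h0
      rw [Set.ncard_eq_zero hfin'] at h0
      rw [h0] at hmem'
      exact hmem'
    rw [← hcard] at hne'
    obtain ⟨χ, hχ, hgχ⟩ := Set.nonempty_of_ncard_ne_zero hne'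
    refine ⟨χ, hχ, ?_, hfix χ hχ hgχ⟩
    obtain ⟨hz71, hz72, hz73, -, -⟩ := hz7 χ hχ
    have hnug : ∀ w, nu B χ (g w) = nu B χ w := by
      intro w
      have h1 := ((ha W g hg).2.2.1 χ hχ).2.2.2.1 w
      rwa [hgχ] at h1
    have hgw : g w₀ ∈ W := by
      have h1 : g w₀ ∈ mp g W := ⟨w₀, hw₀, rfl⟩
      rwa [hgW] at h1
    -- the kernel of the central character
    let Kn : Subgroup V₀ :=
      { carrier := {w | w ∈ W ∧ nu B χ w = 1}
        one_mem' := ⟨W.one_mem, hz72⟩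
        mul_mem' := fun {a b} ha1 hb1 => ⟨W.mul_mem ha1.1 hb1.1, by
          rw [(hz73 a ha1.1).2.2 b hb1.1, ha1.2, hb1.2, mul_one]⟩
        inv_mem' := fun {a} ha1 => ⟨W.inv_mem ha1.1, by
          have h1 := (hz73 a ha1.1).2.2 a⁻¹ (W.inv_mem ha1.1)
          rw [mul_inv_cancel, hz72, ha1.2, one_mul] at h1
          exact h1.symm⟩ }
    have hy : g w₀ * w₀⁻¹ ∈ Kn := by
      refine ⟨W.mul_mem hgw (W.inv_mem hw₀), ?_⟩
      rw [(hz73 _ hgw).2.2 _ (W.inv_mem hw₀), hnug, ← (hz73 _ hw₀).2.2 _ (W.inv_mem hw₀),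
        mul_inv_cancel, hz72]
    have hy1 : g w₀ * w₀⁻¹ ≠ 1 := by
      intro h
      exact hne (mul_inv_eq_one.1 h)
    have hKW : Kn ≤ W := fun w hw => hw.1
    have hKe : Kn = W := by
      have h1 : Nat.card Kn ∣ ℓ := hWc ▸ Subgroup.card_dvd_of_le hKW
      rcases (Nat.dvd_prime hℓ).1 h1 with h2 | h2
      · exfalso
        rw [Subgroup.card_eq_one] at h2
        rw [h2, Subgroup.mem_bot] at hy
        exact hy1 hy
      · exact Subgroup.eq_of_le_of_card_ge hKW (by rw [h2, hWc])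
    intro w hw
    rw [← hKe] at hw
    exact hw.2

end Pool.Agent.PP.SE.H43
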