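import Pool.Agent.Helper66_K9.Asm
import Pool.Agent.Helper6_K9.GRA
import Pool.Agent.Helper25_K9.GRB
import Pool.Agent.Helper86_K9.GRM
import Pool.Agent.Helper9_K9.DTL
import Pool.Agent.Helper2_K9.KL
import Pool.Agent.Helper65_K9.GAL
import Pool.Agent.Helper24_K9.TRN

/-!
# Squad ASE: the bound for the number of the characters of a block with a defect group of order `ℓ ^ 2`
-/

open scoped BigOperators

noncomputable section

namespace Pool.Agent.PP.SE.H43A

open Pool.Agent.Helper51_AWC Pool.Agent.Helper79_WRA Pool.Agent.PP Pool.Agent.PP.KF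
open Pool.Agent.PP.K9

theorem grm_ : K9.GrmStmt := H86M.grm H6.gra H25.grb

theorem trn_ : K9.TrnStmt := H24.trn H69.fmg H97.orb H3.psi

theorem dtl_ : K9.DtlStmt := K9.H9.dtl kap_ val_ grm_ H86.sec H90.cnj int__ azr_ nz_ prg_ trn_

theorem kl_ : K9.KlStmt := H02.kl dtl_ H02.pug int__ H86.sec azr_ nz_ prg_ H65g.gal

end Pool.Agent.PP.SE.H43A
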