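import Pool.Agent.ASE.Stmts8
import Pool.Agent.ASO.Stmts8
import Pool.Agent.ASO.Stmts3
import Pool.Agent.Helper57_K9.Stmts3

/-!
# Squad ASE, row YYE: the theorem for the datum of a block, from `KaeStmt`

The proof is helper35's (`Helper35_ASE/YYE.lean`, from `KceStmt`), with the first part replaced.
-/

open scoped BigOperators

noncomputable section

namespace Pool.Agent.PP.SE.H43Y

open Pool.Agent.Helper51_AWC Pool.Agent.Helper79_WRA Pool.Agent.PP Pool.Agent.PP.KF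
open Pool.Agent.PP.K9 Pool.Agent.PP.K9.H97 Pool.Agent.PP.H75 Pool.Agent.PP.T3 Pool.Agent.PP.SO
open Pool.Agent.PP.SD Pool.Agent.PP.SE

attribute [local instance] Ideal.Quotient.field

/-- Row YYE. -/
theorem yye2 (kae : KaeStmt) (lme : LmeStmt) (lmb : LmbStmt) (kl : K9.KlStmt) (lbd : K9.LbdStmt)
    (chv : K9.ChvStmt) (nvt : T3.NvtStmt) : YyeStmt := by
  intro ℓ hℓ M _ hM h5 V₀ G _ _ _ _ E₀ hFq B hSd
  have hl2 : ℓ ≠ 2 := by omega
  have hSb : Sb ℓ M E₀ B := hSd.toSb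
  have hL : Ld ℓ B.e B.i.range B.g := hSb.ld
  have hdv := kae ℓ M hM h5 V₀ G E₀ hFq B hSd
  obtain ⟨-, h0, -⟩ := lme ℓ M hM hl2 V₀ G E₀ hFq B hSb
  obtain ⟨-, -, h3, -, -⟩ := lmb ℓ M hM hl2 V₀ G E₀ hFq B hSb
  rw [← h0] at hdv
  have hcd : Nat.card B.i.range = ℓ ^ 2 := by
    rw [← hFq.cd]
    exact (Nat.card_congr (MonoidHom.ofInjective hSb.inj).toEquiv).symm
  have hVX : B.i.range ≤ Subgroup.normalizer (B.i.range : Set G) := Subgroup.le_normalizer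
  obtain ⟨hLN, -⟩ := nvt ℓ M hM G B.e B.i.range B.g hL
  have hcdN : Nat.card (B.i.range.subgroupOf (Subgroup.normalizer (B.i.range : Set G))) =
      ℓ ^ 2 := by
    rw [← hcd]
    exact Nat.card_congr (Subgroup.subgroupOfEquivOfLe hVX).toEquiv
  have hc1 := lbd ℓ M hM G B.e hL.blk.1 hL.blk.2.1
  have hc2 := lbd ℓ M hM _ _ hLN.blk.1 hLN.blk.2.1
  have hk1 := kl ℓ M hM G B.e hL.blk B.i.range hL.tp hcd
  have hk2 := kl ℓ M hM _ _ hLN.blk _ hLN.tp hcdN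
  have hchv := chv ℓ M hM G B.e hL.blk B.i.range hL.tp hcd
  change 1 ≤ ln B.e ∧ ln B.e ≤ _ at hc1
  change 1 ≤ ln (fun t : Subgroup.normalizer (B.i.range : Set G) => br B.i.range B.e t) ∧
    ln (fun t : Subgroup.normalizer (B.i.range : Set G) => br B.i.range B.e t) ≤ _ at hc2
  change YY ℓ ⊤ B.e = (Nat.card G : ℤ) * (ln B.e : ℤ) - (Nat.card G : ℤ) *
    (ln (fun t : Subgroup.normalizer (B.i.range : Set G) => br B.i.range B.e t) : ℤ) at hchv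
  rw [h3] at hchv hc2
  have hb1 : ln B.e ≤ ℓ ^ 2 := hc1.2.trans hk1
  have hb2 : Lam B E₀ ≤ ℓ ^ 2 := hc2.2.trans hk2
  have e4 : (ln B.e : ℤ) - Lam B E₀ = 0 := by
    refine Int.eq_zero_of_abs_lt_dvd hdv ?_
    have h6 : ((Lam B E₀ : ℕ) : ℤ) ≤ ((ℓ ^ 2 : ℕ) : ℤ) := by exact_mod_cast hb2
    have h7 : ((ln B.e : ℕ) : ℤ) ≤ ((ℓ ^ 2 : ℕ) : ℤ) := by exact_mod_cast hb1
    have h8 : (1 : ℤ) ≤ ln B.e := by exact_mod_cast hc1.1
    have h9 : (1 : ℤ) ≤ Lam B E₀ := by exact_mod_cast hc2.1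
    rw [abs_lt]
    constructor
    · linarith
    · linarith
  rw [hchv, ← mul_sub, e4, mul_zero]

end Pool.Agent.PP.SE.H43Y
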