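import Pool.Agent.Helper43_ASO.Asm
import Pool.Agent.Helper25_ASD.LBD
import Pool.Agent.Helper3_ASD.SYD
import Pool.Agent.Helper69_ASD.CJD
import Pool.Agent.Helper87_ASD.FUD
import Pool.Agent.Helper79_ASD.FCD
import Pool.Agent.Helper7_ASD.NSD
import Pool.Agent.Helper49_ASD.RDA
import Pool.Agent.Helper49_ASD.PML
import Pool.Agent.Helper77_ASD.KLD
import Pool.Agent.Helper1_ASD.LNT
import Pool.Agent.Helper91_ASD.LNN
import Pool.Agent.Helper15_ASD.LNH
import Pool.Agent.Helper20_ASD.ESD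
import Pool.Agent.Helper85_ASE.PRB
import Pool.Agent.Helper9_ASE.MPB
import Pool.Agent.Helper97_ASE.CZB
import Pool.Agent.Helper94_ASE.ACB
import Pool.Agent.Helper30_ASE.XWD
import Pool.Agent.Helper49_ASE.LMB
import Pool.Agent.Helper65_ASE.F1S
import Pool.Agent.Helper49_ASE.CHG
import Pool.Agent.Helper31_ASE.LMC
import Pool.Agent.Helper92_ASE.FXS
import Pool.Agent.Helper35_ASE.FXL
import Pool.Agent.Helper91_ASE.LME
import Pool.Agent.Helper60_ASE.FXE
import Pool.Agent.Helper60_ASE.S2F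
import Pool.Agent.Helper16_ASE.YYF
import Pool.Agent.Helper63_ASE.SXA
import Pool.Agent.Helper52_ASE.SXL
import Pool.Agent.Helper2_ASE.CEN
import Pool.Agent.Helper8_ASE.PEG
import Pool.Agent.Helper13_ASE.BRE
import Pool.Agent.Helper62_ASE.TPG
import Pool.Agent.Helper97_ASE.SBG
import Pool.Agent.Helper16_ASE.LNG
import Pool.Agent.Helper2_ASE.LLW
import Pool.Agent.Helper67_ASE.XCG
import Pool.Agent.Helper74_ASE.CGF
import Pool.Agent.Helper43_ASE.FXC
import Pool.Agent.Helper81_ASE.XCH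
import Pool.Agent.Helper47_ASE.SXB
import Pool.Agent.Helper2_ASE.CGS
import Pool.Agent.Helper8_ASE.CHZ
import Pool.Agent.Helper42_ASE.SDG
import Pool.Agent.Helper8_ASE.EXG
import Pool.Agent.Helper43_ASE.YYE2
import Pool.Agent.Helper4_ASE.KAE
import Pool.Agent.Helper91_ASE.BLG
import Pool.Agent.Helper91_ASE.IND
import Pool.Agent.Helper42_ASE.VNU
import Pool.Agent.Helper42_ASE.TGG
import Pool.Agent.Helper43_ASE.KL

/-!
# Squad ASE, block C: the statements, closed
-/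

open scoped BigOperators

noncomputable section

namespace Pool.Agent.PP.SE.H43A

open Pool.Agent.Helper51_AWC Pool.Agent.Helper79_WRA Pool.Agent.PP Pool.Agent.PP.KF
open Pool.Agent.PP.K9 Pool.Agent.PP.K9.H97 Pool.Agent.PP.H75 Pool.Agent.PP.T3 Pool.Agent.PP.SO
open Pool.Agent.PP.SD Pool.Agent.PP.SE

attribute [local instance] Ideal.Quotient.field

/-! ## The rows of ASD -/

theorem lbd : SD.LbdStmt := SD.H25.lbd
theorem syd : SydStmt := SD.H3.syd lbu_ lbd
theorem cjd : CjdStmt := SD.H69.cjd lbu_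
theorem fcd : FcdStmt := SD.H79.fcd T3.smg_
theorem nsd : NsdStmt := SD.H7.nsd lbd
theorem rda : RdaStmt := SD.H49.rda
theorem pml : PmlStmt := SD.H49.pml K9.rot_ T3.lrk_
theorem kld : KldStmt := SD.H77.kld pml lbd T6.cpl_ T3.smg_ T3.loc_ T3.lsb_ T8.lfr_ K9.H3.lbd
theorem lnt : LntStmt := SD.H1.lnt
theorem lnn : LnnStmt := SD.H91.lnn lnt T3.nvt_
theorem lnh : LnhStmt := SD.H15.lnh lnn K9.chv_
theorem esd : EsdStmt := SD.H20.esd

/-! ## The rows of ASE, block C -/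

theorem prb : PrbStmt := SE.H85.prb
theorem mpb : MpbStmt := SE.H9.mpb
theorem czb : CzbStmt := SE.H97.czb fcd
theorem acb : AcbStmt := SE.H94.acb cjd
theorem xwd : XwdStmt := SE.H30.xwd syd cjd
theorem lmb : LmbStmt := SE.H49.lmb kld lnh lnn rda K9.H3.lbd
theorem f1s : F1sStmt := SE.H65.f1s
theorem chg : ChgStmt := SE.H49.chg nsd syd cjd
theorem lmc : LmcStmt := SE.H31.lmc xwd lmb f1s chg
theorem fxs : FxsStmt := SE.H92.fxs xwd lmb f1s
theorem fxl : FxlStmt := SE.H35.fxl fxs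
theorem lme : LmeStmt := SE.H91.lme lmb lmc
theorem fxe : FxeStmt := SE.H60.fxe fxl
theorem sxa : SxaStmt := SE.H63.sxa
theorem sxl : SxlStmt := SE.H52.sxl
theorem cen : CenStmt := SE.H2.cen
theorem peg : PegStmt := SE.H8.peg
theorem bre : BreStmt := SE.H13.bre
theorem tpg : TpgStmt := SE.H62.tpg
theorem llw : LlwStmt := SE.H2.llw prb
theorem sxb : SxbStmt := SE.H47.sxb
theorem cgs : CgsStmt := SE.H2.cgs
theorem chz : ChzStmt := SE.H8.chz

theorem blg : BlgStmt := SE.H91.blg bre SO.inf_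
theorem ind : IndStmt := SE.H91.ind
theorem vnu : VnuStmt := SE.H42.vnu cen blg chz
theorem sbg : SbgStmt := SE.H97.sbg cen blg tpg
theorem sdg : SdgStmt := SE.H42.sdg sbg cen blg chz

/-! ## The rows which depend on TGG -/

theorem lng' (tgg : TggStmt) : LngStmt := SE.H16.lng sbg blg tgg lmb
theorem xcg' (tgg : TggStmt) : XcgStmt := SE.H67.xcg cen blg tgg ind vnu llw
theorem exg' (tgg : TggStmt) : ExgStmt := SE.H8.exg cen blg ind vnu llw (xcg' tgg)
theorem cge' (tgg : TggStmt) : CgeStmt :=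
  SE.H74.cgf sxa sxl sxb cgs cen peg sdg tgg (lng' tgg) (xcg' tgg) (exg' tgg)
theorem fxc' (tgg : TggStmt) : FxcStmt := SE.H43.fxc (cge' tgg) fxe czb acb
theorem xce' (tgg : TggStmt) : XceStmt := SE.H81.xch (fxc' tgg) prb mpb acb

/-! ## The final deduction -/

theorem kae' (tgg : TggStmt) (rsx : RsxStmt) (cme : CmeStmt) : KaeStmt :=
  SE.H4.kae rsx cme lme fxe (cge' tgg) (xce' tgg) kld SO.pex_
theorem yye' (kae : KaeStmt) : YyeStmt :=
  SE.H43Y.yye2 kae lme lmb kl_ K9.H3.lbd K9.chv_ T3.nvt_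
theorem s2f' (tgg : TggStmt) (rsx : RsxStmt) (cme : CmeStmt) : S2fStmt :=
  SE.H60.s2f (yye' (kae' tgg rsx cme)) esd syd

/-! ## Closed forms -/

theorem tgg : TggStmt := SE.H42.tgg cen bre
theorem lng : LngStmt := lng' tgg
theorem xcg : XcgStmt := xcg' tgg
theorem exg : ExgStmt := exg' tgg
theorem cge : CgeStmt := cge' tgg
theorem fxc : FxcStmt := fxc' tgg
theorem xce : XceStmt := xce' tgg
theorem kae (rsx : RsxStmt) (cme : CmeStmt) : KaeStmt := kae' tgg rsx cme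
theorem yye (rsx : RsxStmt) (cme : CmeStmt) : YyeStmt := yye' (kae rsx cme)
theorem s2f (rsx : RsxStmt) (cme : CmeStmt) : S2fStmt := s2f' tgg rsx cme

end Pool.Agent.PP.SE.H43A
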